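import Mathlib
import Pool.Agent.H42.Kur2

open Cardinal Pool.Agent.H42.KurDefs

/-- `σ ≤ (2 ^ 𝔠)⁺` in ZFC; under CH, `σ = 𝔠⁺` holds exactly when there is a Kurepa family; under
CH and `2 ^ 𝔠 = 𝔠⁺`, `σ = 𝔠⁺⁺` when there is none. -/
theorem Pool.Agent.Results.MP_14431a_gt.Indep.result :
    sigma ≤ Order.succ (2 ^ 𝔠) ∧
    ((𝔠 : Cardinal.{0}) = ℵ₁ → Order.succ 𝔠 ≤ sigma ∧ (sigma = Order.succ 𝔠 ↔ KH)) ∧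
    ((𝔠 : Cardinal.{0}) = ℵ₁ → (2 : Cardinal.{0}) ^ 𝔠 = Order.succ 𝔠 → ¬ KH →
      sigma = Order.succ (Order.succ 𝔠)) :=
  ⟨Pool.Agent.H42.Kur.up, fun h => ⟨Pool.Agent.H42.Kur.low h, Pool.Agent.H42.Kur.main h⟩,
    Pool.Agent.H42.Kur.main2⟩
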